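import Pool.Agent.Helper38_Refl.Walk

/-!
# STARTC: the kernel check of the first vertex
-/

namespace Pool.Agent.Refl.H38

open Matrix Pool.Agent.Refl Pool.Agent.Refl.H93

/-! ### bilinear algebra -/

theorem bz_add_l (G : M4) (x y z : Z4) : bz G (x + y) z = bz G x z + bz G y z := by
  simp only [bz_eq, add_dotProduct]

theorem bz_smul_l (G : M4) (k : ℤ) (x z : Z4) : bz G (k • x) z = k * bz G x z := by
  simp only [bz_eq, smul_dotProduct, smul_eq_mul]

theorem bz_add_r (G : M4) (x y z : Z4) : bz G z (x + y) = bz G z x + bz G z y := by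
  simp only [bz_eq, Matrix.mulVec_add, dotProduct_add]

theorem bz_smul_r (G : M4) (k : ℤ) (x z : Z4) : bz G z (k • x) = k * bz G z x := by
  simp only [bz_eq, Matrix.mulVec_smul, dotProduct_smul, smul_eq_mul]

theorem q_pos {Ka Kb Kc P Q R : ℤ} (h1 : 0 < Ka) (h2 : 0 < Ka * Kb - P ^ 2)
    (h3 : 0 < Ka * (Kb * Kc - R ^ 2) - P * (P * Kc + Q * R) - Q * (Q * Kb + P * R))
    {x y z : ℤ} (h : x ≠ 0 ∨ y ≠ 0 ∨ z ≠ 0) :
    0 < Ka * x ^ 2 + Kb * y ^ 2 + Kc * z ^ 2 - 2 * P * x * y - 2 * Q * x * z -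
      2 * R * y * z := by
  by_contra hq
  push Not at hq
  set A := Ka * Kb - P ^ 2 with hA
  set De := Ka * (Kb * Kc - R ^ 2) - P * (P * Kc + Q * R) - Q * (Q * Kb + P * R) with hDe
  have id : Ka * A * (Ka * x ^ 2 + Kb * y ^ 2 + Kc * z ^ 2 - 2 * P * x * y - 2 * Q * x * z -
      2 * R * y * z) = A * (Ka * x - P * y - Q * z) ^ 2 + (A * y - (R * Ka + P * Q) * z) ^ 2 +
      Ka * De * z ^ 2 := by
    rw [hA, hDe]
    ring
  have h4 : Ka * A * (Ka * x ^ 2 + Kb * y ^ 2 + Kc * z ^ 2 - 2 * P * x * y - 2 * Q * x * z -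
      2 * R * y * z) ≤ 0 := mul_nonpos_of_nonneg_of_nonpos (by positivity) hq
  rw [id] at h4
  have t1 : 0 ≤ A * (Ka * x - P * y - Q * z) ^ 2 := by positivity
  have t2 : 0 ≤ (A * y - (R * Ka + P * Q) * z) ^ 2 := by positivity
  have t3 : 0 ≤ Ka * De * z ^ 2 := by positivity
  have e3 : Ka * De * z ^ 2 = 0 := by linarith
  have e2 : (A * y - (R * Ka + P * Q) * z) ^ 2 = 0 := by linarith
  have e1 : A * (Ka * x - P * y - Q * z) ^ 2 = 0 := by linarith
  have hz : z = 0 := by
    rcases mul_eq_zero.1 e3 with h | h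
    · exact absurd h (mul_pos h1 h3).ne'
    · exact pow_eq_zero_iff (two_ne_zero) |>.1 h
  have e2' : A * y - (R * Ka + P * Q) * z = 0 := pow_eq_zero_iff (two_ne_zero) |>.1 e2
  rw [hz, mul_zero, sub_zero] at e2'
  have hy : y = 0 := (mul_eq_zero.1 e2').resolve_left h2.ne'
  have e1' : Ka * x - P * y - Q * z = 0 :=
    pow_eq_zero_iff (two_ne_zero) |>.1 ((mul_eq_zero.1 e1).resolve_left h2.ne')
  rw [hy, hz, mul_zero, mul_zero, sub_zero, sub_zero] at e1'
  have hx : x = 0 := (mul_eq_zero.1 e1').resolve_left h1.ne'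
  rcases h with h | h | h
  · exact h hx
  · exact h hy
  · exact h hz

/-- Three vectors with positive definite Gram matrix. -/
structure PD (G : M4) (a b c : Z4) : Prop where
  symm : G.transpose = G
  h1 : 0 < bz G a a
  h2 : 0 < bz G a a * bz G b b - bz G a b ^ 2
  h3 : 0 < bz G a a * (bz G b b * bz G c c - bz G b c ^ 2) -
    bz G a b * (bz G a b * bz G c c - bz G a c * bz G b c) +
    bz G a c * (bz G a b * bz G b c - bz G a c * bz G b b)

theorem comm_of {G : M4} (h : G.transpose = G) (x y : Z4) : bz G x y = bz G y x := by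
  rw [bz_eq, bz_eq, Matrix.dotProduct_mulVec, ← Matrix.mulVec_transpose, h, dotProduct_comm]

theorem posvec {G : M4} {a b c : Z4} (h : PD G a b c) {v : Z4} {D x y z : ℤ} (hD : D ≠ 0)
    (hv : D • v = x • a + y • b + z • c) (hne : x ≠ 0 ∨ y ≠ 0 ∨ z ≠ 0) : 0 < bz G v v := by
  have h1 := q_pos (Ka := bz G a a) (Kb := bz G b b) (Kc := bz G c c) (P := -bz G a b)
    (Q := -bz G a c) (R := -bz G b c) h.h1 (by have := h.h2; linarith [neg_sq (bz G a b)])
    (by have := h.h3; nlinarith) hne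
  have h2 : D ^ 2 * bz G v v = bz G (D • v) (D • v) := by
    rw [bz_smul_l, bz_smul_r]
    ring
  have h3 : bz G (D • v) (D • v) = bz G a a * x ^ 2 + bz G b b * y ^ 2 + bz G c c * z ^ 2 -
      2 * (-bz G a b) * x * y - 2 * (-bz G a c) * x * z - 2 * (-bz G b c) * y * z := by
    rw [hv]
    simp only [bz_add_l, bz_add_r, bz_smul_l, bz_smul_r]
    rw [comm_of h.symm b a, comm_of h.symm c a, comm_of h.symm c b]
    ring
  have hD2 : 0 < D ^ 2 := by positivity
  rw [← h3, ← h2] at h1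
  exact (mul_pos_iff_of_pos_left hD2).1 h1

theorem root_neg {G : M4} {r : Z4} (h : IsRoot G r) : IsRoot G (-r) := by
  have e : ∀ x : Z4, bz G x (-r) = -bz G x r := by
    intro x
    have := bz_smul_r G (-1) r x
    simpa using this
  have e2 : bz G (-r) (-r) = bz G r r := by
    rw [e]
    have := bz_smul_l G (-1) r r
    simp at this
    rw [this]
    ring
  refine ⟨by rw [e2]; exact h.pos, fun x => ?_, ?_⟩
  · rw [e2, e]
    have := h.dvd x
    rw [mul_neg]
    exact (dvd_neg).2 this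
  · intro d hd
    apply h.prim
    intro i
    have := hd i
    simpa using this

/-- the numbers `2 (r, x) / (r, r)` are at most three -/
theorem nlt {G : M4} (hs : G.transpose = G) {r x : Z4} (hr : IsRoot G r) (hx : IsRoot G x)
    (hg : 0 < bz G r r * bz G x x - bz G r x ^ 2) :
    ∃ u : ℤ, 2 * bz G r x = bz G r r * u ∧ |u| ≤ 3 := by
  obtain ⟨u, hu⟩ := hr.dvd x
  obtain ⟨w, hw⟩ := hx.dvd r
  rw [comm_of hs x r] at hu
  refine ⟨u, hu, ?_⟩
  have hK := hr.pos
  have hX := hx.pos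
  have h1 : 4 * bz G r x ^ 2 = bz G r r * bz G x x * (u * w) := by
    have : (2 * bz G r x) * (2 * bz G r x) = (bz G r r * u) * (bz G x x * w) := by
      rw [← hu, ← hw]
    linarith
  have h2 : u * w < 4 := by
    have hpos : 0 < bz G r r * bz G x x := mul_pos hK hX
    by_contra hcon
    push Not at hcon
    have : bz G r r * bz G x x * 4 ≤ bz G r r * bz G x x * (u * w) :=
      mul_le_mul_of_nonneg_left hcon hpos.le
    linarith
  rcases lt_trichotomy u 0 with h | h | h
  · have hw' : w < 0 := by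
      have : bz G x x * w < 0 := by
        rw [← hw, hu]
        exact mul_neg_of_pos_of_neg hK h
      exact (pos_iff_neg_of_mul_neg this).1 hX
    rw [abs_of_neg h]
    nlinarith
  · rw [h]
    simp
  · have hw' : 0 < w := by
      have : 0 < bz G x x * w := by
        rw [← hw, hu]
        exact mul_pos hK h
      exact (mul_pos_iff_of_pos_left hX).1 this
    rw [abs_of_pos h]
    nlinarith

/-- the Gram determinant of `r` and `x` is positive -/
theorem g2pos {G : M4} {a b c : Z4} (h : PD G a b c) {r x : Z4} (hr : IsRoot G r) {D x1 x2 x3 : ℤ}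
    (hD : D ≠ 0) (hv : D • (bz G r r • x + (-bz G r x) • r) = x1 • a + x2 • b + x3 • c)
    (hne : x1 ≠ 0 ∨ x2 ≠ 0 ∨ x3 ≠ 0) : 0 < bz G r r * bz G x x - bz G r x ^ 2 := by
  have h1 := posvec h hD hv hne
  simp only [bz_add_l, bz_add_r, bz_smul_l, bz_smul_r] at h1
  rw [comm_of h.symm x r] at h1
  have h2 : bz G r r * (bz G r r * bz G x x) + -bz G r x * (bz G r r * bz G r x) +
      (bz G r r * (-bz G r x * bz G r x) + -bz G r x * (-bz G r x * bz G r r)) =
      bz G r r * (bz G r r * bz G x x - bz G r x ^ 2) := by ring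
  have h3 : 0 < bz G r r * (bz G r r * bz G x x - bz G r x ^ 2) := by
    rw [← h2]
    linarith
  exact (mul_pos_iff_of_pos_left hr.pos).1 h3

/-! ### kernel functions -/

theorem divI_mul (d : ℕ) (hd : 0 < d) (y : ℤ) : K.divI ((d : ℤ) * y) d = y := by
  rcases le_or_gt 0 y with h | h
  · obtain ⟨n, rfl⟩ := Int.eq_ofNat_of_zero_le h
    have e : ((d : ℤ) * (n : ℤ)) = Int.ofNat (d * n) := rfl
    rw [e]
    have e2 : K.divI (Int.ofNat (d * n)) d = Int.ofNat (Nat.div (d * n) d) := rfl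
    rw [e2]
    have e3 : Nat.div (d * n) d = n := Nat.mul_div_cancel_left n hd
    rw [e3]
    rfl
  · obtain ⟨n, hn⟩ := Int.eq_ofNat_of_zero_le (neg_nonneg.2 h.le)
    have hy : y = -(n : ℤ) := by rw [← hn]; ring
    have hn0 : 0 < n := by omega
    obtain ⟨m, hm⟩ : ∃ m, d * n = m + 1 := ⟨d * n - 1, by have := Nat.mul_pos hd hn0; omega⟩
    have e : ((d : ℤ) * y) = Int.negSucc m := by
      rw [hy, Int.negSucc_eq]
      have : ((d * n : ℕ) : ℤ) = (m : ℤ) + 1 := by rw [hm]; push_cast; ring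
      push_cast at this
      linarith
    rw [e]
    have e2 : K.divI (Int.negSucc m) d = -(Int.ofNat (Nat.div (m + 1) d)) := rfl
    rw [e2, ← hm]
    have e3 : Nat.div (d * n) d = n := Nat.mul_div_cancel_left n hd
    rw [e3, hy]
    rfl

theorem brec_true {b x : Bool} (h : (Bool.rec true x b : Bool) = true) (hb : b = true) :
    x = true := by
  subst hb
  exact h

theorem noR_spec (A : K.I10) (num : K.I4) (d : ℕ) (c : K.I4) (r : Z4) (hd : 0 < d)
    (hnum : vI num = (d : ℤ) • r) (h : K.noR A num d c = true) :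
    r = vI c ∨ ¬ IsRoot (matI A) r := by
  have e : K.noR A num d c = (Bool.rec true
    ((fun r : K.I4 => K.orb (K.eqI r c) (K.notb (K.isR A r)))
      (K.I4.mk (K.divI num.x d) (K.divI num.y d) (K.divI num.z d) (K.divI num.w d)))
    (K.ands (K.ands (K.dvdI d num.x) (K.dvdI d num.y))
      (K.ands (K.dvdI d num.z) (K.dvdI d num.w))) : Bool) := rfl
  rw [e] at h
  have h0 : num.x = d * r 0 := congrFun hnum 0
  have h1 : num.y = d * r 1 := congrFun hnum 1
  have h2 : num.z = d * r 2 := congrFun hnum 2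
  have h3 : num.w = d * r 3 := congrFun hnum 3
  have hb := brec_true h (by
    rw [ands_iff, ands_iff, ands_iff, dvdI_iff, dvdI_iff, dvdI_iff, dvdI_iff, h0, h1, h2, h3]
    exact ⟨⟨dvd_mul_right _ _, dvd_mul_right _ _⟩, dvd_mul_right _ _, dvd_mul_right _ _⟩)
  rw [orb_iff, eqI_iff, notb_iff, ← Bool.not_eq_true, isR_iff] at hb
  have hr : vI (K.I4.mk (K.divI num.x d) (K.divI num.y d) (K.divI num.z d) (K.divI num.w d)) =
      r := by
    rw [h0, h1, h2, h3, divI_mul d hd, divI_mul d hd, divI_mul d hd, divI_mul d hd]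
    ext i
    fin_cases i <;> rfl
  rw [hr] at hb
  exact hb

theorem allL_spec (f : ℕ → Bool) (l : List ℕ) (h : K.allL f l = true) : ∀ x ∈ l, f x = true := by
  induction l with
  | nil => intro x hx; exact absurd hx (List.not_mem_nil)
  | cons a l ih =>
    have e : K.allL f (a :: l) = (Bool.rec false (K.allL f l) (f a) : Bool) := rfl
    rw [e] at h
    have h1 : f a = true ∧ K.allL f l = true := by
      cases hf : f a
      · rw [hf] at h
        exact absurd h (by simp)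
      · rw [hf] at h
        exact ⟨rfl, h⟩
    intro x hx
    rcases List.mem_cons.1 hx with h2 | h2
    · rw [h2]; exact h1.1
    · exact ih h1.2 x h2

theorem st1_spec (E : K.Ed) (h : K.st1 E = true) (u v : ℕ) (hu : 1 ≤ u ∧ u ≤ 3)
    (hv : 1 ≤ v ∧ v ≤ 3) (hx : 1 ≤ E.Kb * u - E.p * v) (hy : 1 ≤ E.Ka * v - E.p * u)
    (hval : (4 * E.A33) % (E.Kb * u * u + E.Ka * v * v - 2 * E.p * (u * v)) = 0) :
    K.noR E.A (K.addI (K.smul (Int.ofNat ((4 * E.A33) / (E.Kb * u * u + E.Ka * v * v -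
      2 * E.p * (u * v)) * (E.Kb * u - E.p * v))) E.a)
      (K.smul (-(Int.ofNat ((4 * E.A33) / (E.Kb * u * u + E.Ka * v * v -
      2 * E.p * (u * v)) * (E.Ka * v - E.p * u)))) E.b)) (2 * E.A33) K.zI4 = true := by
  have h1 := allL_spec _ _ h u (by
    have : u = 1 ∨ u = 2 ∨ u = 3 := by omega
    rcases this with rfl | rfl | rfl <;> simp)
  have h2 := allL_spec _ _ h1 v (by
    have : v = 1 ∨ v = 2 ∨ v = 3 := by omega
    rcases this with rfl | rfl | rfl <;> simp)
  rw [fc_eq, fc_eq, fc_eq] at h2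
  have h3 := brec_true h2 (by
    rw [ands_iff, ands_iff]
    refine ⟨⟨?_, ?_⟩, ?_⟩
    · rw [Nat.ble_eq]; exact hx
    · rw [Nat.ble_eq]; exact hy
    · rw [Nat.beq_eq]; exact hval)
  rw [fc_eq] at h3
  exact h3

theorem st2_spec (E : K.Ed) (h : K.st2 E = true) (u v w : ℕ) (hu : u ≤ 3)
    (hv : v ≤ 3) (hw : 1 ≤ w ∧ w ≤ 3)
    (hz : E.A13 * u + E.A23 * v < E.A33 * w)
    (hxy : E.A13 * w < E.A11 * u + E.A12 * v ∨ E.A23 * w < E.A12 * u + E.A22 * v)
    (hval : (4 * E.De) % (E.A11 * u * u + E.A22 * v * v + (E.A33 * w * w + 2 * E.A12 * u * v) -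
      2 * (E.A13 * u * w + E.A23 * v * w)) = 0) :
    ∀ k, k = (4 * E.De) / (E.A11 * u * u + E.A22 * v * v + (E.A33 * w * w + 2 * E.A12 * u * v) -
      2 * (E.A13 * u * w + E.A23 * v * w)) →
    K.noR E.A (K.linI
      ((k : ℤ) * Int.subNatNat (E.A13 * w) (E.A11 * u + E.A12 * v))
      ((k : ℤ) * Int.subNatNat (E.A23 * w) (E.A12 * u + E.A22 * v))
      ((k : ℤ) * Int.subNatNat (E.A33 * w) (E.A13 * u + E.A23 * v)) E.a E.b E.c)
      (2 * E.De) E.c = true := by
  have hm : ∀ t : ℕ, t ≤ 3 → t ∈ [0, 1, 2, 3] := by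
    intro t ht
    have : t = 0 ∨ t = 1 ∨ t = 2 ∨ t = 3 := by omega
    rcases this with rfl | rfl | rfl | rfl <;> simp
  have h1 := allL_spec _ _ h u (hm u hu)
  have h2 := allL_spec _ _ h1 v (hm v hv)
  have h2' := allL_spec _ _ h2 w (by
    have : w = 1 ∨ w = 2 ∨ w = 3 := by omega
    rcases this with rfl | rfl | rfl <;> simp)
  rw [fc_eq] at h2'
  have h3 := brec_true h2' (by
    rw [ands_iff, ands_iff, orb_iff]
    refine ⟨⟨?_, ?_⟩, ?_⟩
    · rw [Nat.beq_eq]; exact hval
    · rw [Nat.blt_eq]; exact hz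
    · rw [Nat.blt_eq, Nat.blt_eq]; exact hxy)
  rw [fc_eq] at h3
  intro k hk
  subst hk
  exact h3

theorem nabb_eq (x : ℤ) (f : ℕ → Bool) : K.nabb x f = f x.natAbs := fc_eq _ _

theorem dot_mul (A : K.I10) (x y : K.I4) :
    K.dotI (K.mulI A x) y = bz (matI A) (vI x) (vI y) := by
  have : K.dotI (K.mulI A x) y = K.dotI y (K.mulI A x) := by
    rw [dotI_vI, dotI_vI, dotProduct_comm]
  rw [this, dotI_mulI, bz_commA]

/-- the data of the structure computed by `mkEd` -/
structure EdOK (A : K.I10) (a b c : K.I4) (E : K.Ed) (Ka Kb Kc p q r : ℕ) : Prop where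
  eA : E.A = A
  ea : E.a = a
  eb : E.b = b
  ec : E.c = c
  eKa : E.Ka = Ka
  eKb : E.Kb = Kb
  eKc : E.Kc = Kc
  ep : E.p = p
  eA11 : E.A11 = Kb * Kc - r * r
  eA22 : E.A22 = Ka * Kc - q * q
  eA33 : E.A33 = Ka * Kb - p * p
  eA12 : E.A12 = p * Kc + q * r
  eA13 : E.A13 = q * Kb + p * r
  eA23 : E.A23 = r * Ka + p * q
  eDe : E.De = Ka * (Kb * Kc - r * r) - (p * (p * Kc + q * r) + q * (q * Kb + p * r))

theorem mkEd_spec (A : K.I10) (a b c : K.I4) (sgn : K.I4 → K.I4) (f : K.Ed → Bool) :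
    ∃ E : K.Ed, K.mkEd A a b c sgn f = f E ∧
      EdOK A a b c E (bz (matI A) (vI a) (vI a)).natAbs (bz (matI A) (vI b) (vI b)).natAbs
        (bz (matI A) (vI c) (vI c)).natAbs (bz (matI A) (vI a) (vI b)).natAbs
        (bz (matI A) (vI a) (vI c)).natAbs (bz (matI A) (vI b) (vI c)).natAbs := by
  have e : K.mkEd A a b c sgn f = (fun u v w : K.I4 =>
    K.nabb (K.dotI u a) fun Ka => K.nabb (K.dotI v b) fun Kb => K.nabb (K.dotI w c) fun Kc =>
    K.nabb (K.dotI u b) fun p => K.nabb (K.dotI u c) fun q => K.nabb (K.dotI v c) fun r =>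
    K.nabb (K.detA A) fun dA =>
    K.fc (Nat.sub (Nat.mul Kb Kc) (Nat.mul r r)) fun A11 =>
    K.fc (Nat.sub (Nat.mul Ka Kc) (Nat.mul q q)) fun A22 =>
    K.fc (Nat.sub (Nat.mul Ka Kb) (Nat.mul p p)) fun A33 =>
    K.fc (Nat.add (Nat.mul p Kc) (Nat.mul q r)) fun A12 =>
    K.fc (Nat.add (Nat.mul q Kb) (Nat.mul p r)) fun A13 =>
    K.fc (Nat.add (Nat.mul r Ka) (Nat.mul p q)) fun A23 =>
    K.fc (Nat.sub (Nat.mul Ka A11) (Nat.add (Nat.mul p A12) (Nat.mul q A13))) fun De =>
    f (K.Ed.mk A a b c (sgn (K.crs u v w)) Ka Kb Kc p A11 A22 A33 A12 A13 A23 De dA))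
    (K.mulI A a) (K.mulI A b) (K.mulI A c) := rfl
  rw [e]
  simp only [nabb_eq, fc_eq, dot_mul]
  refine ⟨_, rfl, ?_⟩
  constructor <;> rfl

/-- the numbers of three obtuse roots -/
structure Nums (G : M4) (a b c : Z4) (Ka Kb Kc p q r : ℕ) : Prop where
  symm : G.transpose = G
  ka : (Ka : ℤ) = bz G a a
  kb : (Kb : ℤ) = bz G b b
  kc : (Kc : ℤ) = bz G c c
  hp : (p : ℤ) = -bz G a b
  hq : (q : ℤ) = -bz G a c
  hr : (r : ℤ) = -bz G b c
  ra : IsRoot G a
  rb : IsRoot G b
  rc : IsRoot G c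
  A33 : 1 ≤ Ka * Kb - p * p
  De : 1 ≤ Ka * (Kb * Kc - r * r) - (p * (p * Kc + q * r) + q * (q * Kb + p * r))

theorem Nums.pd {G : M4} {a b c : Z4} {Ka Kb Kc p q r : ℕ} (h : Nums G a b c Ka Kb Kc p q r) :
    PD G a b c ∧ r * r < Kb * Kc ∧ q * q < Ka * Kc := by
  have hA := h.A33
  have hDe := h.De
  have hK : 0 < (Ka : ℤ) := by rw [h.ka]; exact h.ra.pos
  have h1 : r * r < Kb * Kc := by
    by_contra hcon
    push Not at hcon
    rw [Nat.sub_eq_zero_of_le hcon, Nat.mul_zero, Nat.zero_sub] at hDe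
    omega
  have h2 : (0 : ℤ) < Ka * Kb - p ^ 2 := by
    have : p * p < Ka * Kb := by omega
    have h3 : ((p * p : ℕ) : ℤ) < ((Ka * Kb : ℕ) : ℤ) := by exact_mod_cast this
    push_cast at h3
    nlinarith
  have h3 : (0 : ℤ) < Ka * (Kb * Kc - r * r) - (p * (p * Kc + q * r) + q * (q * Kb + p * r)) := by
    have h4 : p * (p * Kc + q * r) + q * (q * Kb + p * r) < Ka * (Kb * Kc - r * r) := by omega
    have h5 : ((p * (p * Kc + q * r) + q * (q * Kb + p * r) : ℕ) : ℤ) <
        ((Ka * (Kb * Kc - r * r) : ℕ) : ℤ) := by exact_mod_cast h4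
    push_cast [Nat.cast_sub h1.le] at h5
    linarith
  refine ⟨⟨h.symm, ?_, ?_, ?_⟩, h1, ?_⟩
  · rw [← h.ka]; exact hK
  · have e : bz G a b = -(p : ℤ) := by rw [h.hp]; ring
    rw [← h.ka, ← h.kb, e]
    linarith [neg_sq (p : ℤ)]
  · have e1 : bz G a b = -(p : ℤ) := by rw [h.hp]; ring
    have e2 : bz G a c = -(q : ℤ) := by rw [h.hq]; ring
    have e3 : bz G b c = -(r : ℤ) := by rw [h.hr]; ring
    rw [← h.ka, ← h.kb, ← h.kc, e1, e2, e3]
    nlinarith
  · -- A22 > 0
    have hid : ((Ka : ℤ) * Kb - p ^ 2) * ((Ka : ℤ) * Kc - q ^ 2) - (r * Ka + p * q) ^ 2 =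
        Ka * (Ka * (Kb * Kc - r * r) - (p * (p * Kc + q * r) + q * (q * Kb + p * r))) := by ring
    have h6 : 0 < ((Ka : ℤ) * Kb - p ^ 2) * ((Ka : ℤ) * Kc - q ^ 2) := by
      have := mul_pos hK h3
      rw [← hid] at this
      nlinarith [sq_nonneg ((r : ℤ) * Ka + p * q)]
    have h7 := (mul_pos_iff_of_pos_left h2).1 h6
    have : ((q * q : ℕ) : ℤ) < ((Ka * Kc : ℕ) : ℤ) := by
      push_cast
      nlinarith
    exact_mod_cast this

theorem vI_smul (d : ℤ) (v : K.I4) : vI (K.smul d v) = d • vI v := by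
  ext i
  fin_cases i <;> rfl

theorem vI_add (u v : K.I4) : vI (K.addI u v) = vI u + vI v := by
  ext i
  fin_cases i <;> rfl

theorem vI_zero : vI K.zI4 = 0 := by
  ext i
  fin_cases i <;> rfl

theorem root_ne_zero {G : M4} {x : Z4} (h : IsRoot G x) : x ≠ 0 := by
  rintro rfl
  have := h.pos
  rw [bz_eq, zero_dotProduct] at this
  exact absurd this (lt_irrefl _)

theorem p1core (A : K.I10) (a b c : K.I4) (E : K.Ed) (Ka Kb Kc p q r : ℕ)
    (hN : Nums (matI A) (vI a) (vI b) (vI c) Ka Kb Kc p q r) (hE : EdOK A a b c E Ka Kb Kc p q r)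
    (hst : K.st1 E = true) {x : Z4} (hx : IsRoot (matI A) x) {D α β : ℤ} (hD : 0 < D)
    (hrel : D • x = α • vI a + β • vI b) (hα : 0 < α) (hβ : β < 0) : False := by
  obtain ⟨hPD, hA11, hA22⟩ := hN.pd
  set G := matI A with hG
  have hs := hN.symm
  have eab : bz G (vI a) (vI b) = -(p : ℤ) := by rw [hN.hp]; ring
  have eba : bz G (vI b) (vI a) = -(p : ℤ) := by rw [comm_of hs]; exact eab
  set xa := bz G x (vI a) with hxa
  set xb := bz G x (vI b) with hxb
  set KK := bz G x x with hKK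
  have hK : 0 < KK := hx.pos
  have e1 : D * xa = α * Ka + β * -(p : ℤ) := by
    have := congrArg (fun v => bz G v (vI a)) hrel
    simp only [bz_smul_l, bz_add_l] at this
    rw [eba, ← hN.ka] at this
    exact this
  have e2 : D * xb = α * -(p : ℤ) + β * Kb := by
    have := congrArg (fun v => bz G v (vI b)) hrel
    simp only [bz_smul_l, bz_add_l] at this
    rw [eab, ← hN.kb] at this
    exact this
  have hKa : 0 < (Ka : ℤ) := by rw [hN.ka]; exact hN.ra.pos
  have hKb : 0 < (Kb : ℤ) := by rw [hN.kb]; exact hN.rb.pos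
  have hp0 : 0 ≤ (p : ℤ) := Int.natCast_nonneg _
  have hxa0 : 0 < xa := by
    have h : 0 < D * xa := by
      rw [e1]
      nlinarith [mul_pos hα hKa]
    exact (mul_pos_iff_of_pos_left hD).1 h
  have hxb0 : xb < 0 := by
    have h : D * xb < 0 := by
      rw [e2]
      nlinarith [mul_neg_of_neg_of_pos hβ hKb]
    by_contra hcon
    push Not at hcon
    nlinarith [mul_nonneg hD.le hcon]
  have hi : ∀ i, D * x i = α * vI a i + β * vI b i := fun i => congrFun hrel i
  have ga : 0 < KK * bz G (vI a) (vI a) - xa ^ 2 := by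
    refine g2pos hPD hx (D := D) (x1 := D * KK - xa * α) (x2 := -(xa * β)) (x3 := 0) hD.ne' ?_
      (Or.inr (Or.inl ?_))
    · ext i
      simp only [Pi.smul_apply, Pi.add_apply, smul_eq_mul, ← hKK, ← hxa]
      linear_combination (-xa) * hi i
    · exact neg_ne_zero.2 (mul_ne_zero hxa0.ne' hβ.ne)
  have gb : 0 < KK * bz G (vI b) (vI b) - xb ^ 2 := by
    refine g2pos hPD hx (D := D) (x1 := -(xb * α)) (x2 := D * KK - xb * β) (x3 := 0) hD.ne' ?_
      (Or.inl ?_)
    · ext i
      simp only [Pi.smul_apply, Pi.add_apply, smul_eq_mul, ← hKK, ← hxb]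
      linear_combination (-xb) * hi i
    · exact neg_ne_zero.2 (mul_ne_zero hxb0.ne hα.ne')
  obtain ⟨u, hu, hu3⟩ := nlt hs hx hN.ra ga
  obtain ⟨v', hv', hv3⟩ := nlt hs hx hN.rb gb
  rw [← hxa, ← hKK] at hu
  rw [← hxb, ← hKK] at hv'
  have hu0 : 0 < u := by
    have : 0 < KK * u := by rw [← hu]; linarith
    exact (mul_pos_iff_of_pos_left hK).1 this
  have hv0 : 0 < -v' := by
    have : 0 < KK * (-v') := by rw [mul_neg, ← hv']; linarith
    exact (mul_pos_iff_of_pos_left hK).1 this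
  obtain ⟨un, hun⟩ := Int.eq_ofNat_of_zero_le hu0.le
  obtain ⟨vn, hvn⟩ := Int.eq_ofNat_of_zero_le hv0.le
  obtain ⟨Kn, hKn⟩ := Int.eq_ofNat_of_zero_le hK.le
  have hun' : u = (un : ℤ) := hun
  have hvn' : v' = -(vn : ℤ) := by
    have : -v' = (vn : ℤ) := hvn
    linarith
  have hKn' : KK = (Kn : ℤ) := hKn
  have hun3 : 1 ≤ un ∧ un ≤ 3 := by
    have := (abs_le.1 hu3).2
    constructor <;> omega
  have hvn3 : 1 ≤ vn ∧ vn ≤ 3 := by
    have := (abs_le.1 hv3).1
    constructor <;> omega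
  have hA33n : p * p < Ka * Kb := by have := hN.A33; omega
  have hA33 : ((Ka * Kb - p * p : ℕ) : ℤ) = (Ka : ℤ) * Kb - p * p := by
    push_cast [Nat.cast_sub hA33n.le]
    ring
  set S : ℤ := (Ka : ℤ) * Kb - p * p with hS
  have hS0 : 0 < S := by
    rw [← hA33]
    have := hN.A33
    exact_mod_cast this
  -- coefficients
  have hX : 2 * S * α = D * KK * ((Kb : ℤ) * un - p * vn) := by
    have : 2 * S * α = Kb * (D * (2 * xa)) + p * (D * (2 * xb)) := by
      linear_combination (-(2 * (Kb : ℤ))) * e1 - 2 * (p : ℤ) * e2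
    rw [this, hu, hv', hun', hvn']
    ring
  have hY : 2 * S * β = -(D * KK * ((Ka : ℤ) * vn - p * un)) := by
    have : 2 * S * β = p * (D * (2 * xa)) + Ka * (D * (2 * xb)) := by
      linear_combination (-(2 * (p : ℤ))) * e1 - 2 * (Ka : ℤ) * e2
    rw [this, hu, hv', hun', hvn']
    ring
  have hX0 : 0 < (Kb : ℤ) * un - p * vn := by
    have h1 : 0 < D * KK * ((Kb : ℤ) * un - p * vn) := by
      rw [← hX]
      positivity
    exact (mul_pos_iff_of_pos_left (mul_pos hD hK)).1 h1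
  have hY0 : 0 < (Ka : ℤ) * vn - p * un := by
    have h1 : 0 < D * KK * ((Ka : ℤ) * vn - p * un) := by
      have : 2 * S * β < 0 := mul_neg_of_pos_of_neg (by positivity) hβ
      linarith
    exact (mul_pos_iff_of_pos_left (mul_pos hD hK)).1 h1
  have hXn : p * vn < Kb * un := by
    have : ((p * vn : ℕ) : ℤ) < ((Kb * un : ℕ) : ℤ) := by push_cast; linarith
    exact_mod_cast this
  have hYn : p * un < Ka * vn := by
    have : ((p * un : ℕ) : ℤ) < ((Ka * vn : ℕ) : ℤ) := by push_cast; linarith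
    exact_mod_cast this
  have hXc : ((Kb * un - p * vn : ℕ) : ℤ) = (Kb : ℤ) * un - p * vn := by
    push_cast [Nat.cast_sub hXn.le]
    ring
  have hYc : ((Ka * vn - p * un : ℕ) : ℤ) = (Ka : ℤ) * vn - p * un := by
    push_cast [Nat.cast_sub hYn.le]
    ring
  have hvec : ∀ i, 2 * S * x i = KK * ((Kb : ℤ) * un - p * vn) * vI a i -
      KK * ((Ka : ℤ) * vn - p * un) * vI b i := by
    intro i
    have h1 : D * (2 * S * x i) = D * (KK * ((Kb : ℤ) * un - p * vn) * vI a i -
        KK * ((Ka : ℤ) * vn - p * un) * vI b i) := by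
      linear_combination (2 * S) * hi i + vI a i * hX + vI b i * hY
    exact mul_left_cancel₀ hD.ne' h1
  have hvec' : (2 * S) • x = (KK * ((Kb : ℤ) * un - p * vn)) • vI a +
      (-(KK * ((Ka : ℤ) * vn - p * un))) • vI b := by
    ext i
    simp only [Pi.smul_apply, Pi.add_apply, smul_eq_mul]
    rw [hvec i]
    ring
  have hval : 4 * S = KK * ((Kb : ℤ) * un * un + Ka * vn * vn - 2 * p * (un * vn)) := by
    have h1 := congrArg (fun v => bz G v x) hvec'
    simp only [bz_smul_l, bz_add_l] at h1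
    rw [comm_of hs (vI a) x, comm_of hs (vI b) x, ← hxa, ← hxb, ← hKK] at h1
    have h2 : KK * (4 * S) = KK * (KK * ((Kb : ℤ) * un * un + Ka * vn * vn -
        2 * p * (un * vn))) := by
      have hu2 : 2 * xa = KK * un := by rw [hu, hun']
      have hv2 : 2 * xb = -(KK * vn) := by rw [hv', hvn']; ring
      linear_combination 2 * h1 + KK * ((Kb : ℤ) * un - p * vn) * hu2 -
        KK * ((Ka : ℤ) * vn - p * un) * hv2
    exact mul_left_cancel₀ hK.ne' h2
  have hval0 : 0 < (Kb : ℤ) * un * un + Ka * vn * vn - 2 * p * (un * vn) := by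
    have : 0 < KK * ((Kb : ℤ) * un * un + Ka * vn * vn - 2 * p * (un * vn)) := by
      rw [← hval]; linarith
    exact (mul_pos_iff_of_pos_left hK).1 this
  have hvaln : 2 * p * (un * vn) < Kb * un * un + Ka * vn * vn := by
    have : ((2 * p * (un * vn) : ℕ) : ℤ) < ((Kb * un * un + Ka * vn * vn : ℕ) : ℤ) := by
      push_cast; linarith
    exact_mod_cast this
  have hvalc : ((Kb * un * un + Ka * vn * vn - 2 * p * (un * vn) : ℕ) : ℤ) =
      (Kb : ℤ) * un * un + Ka * vn * vn - 2 * p * (un * vn) := by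
    push_cast [Nat.cast_sub hvaln.le]
    ring
  have hn : 4 * (Ka * Kb - p * p) = Kn * (Kb * un * un + Ka * vn * vn - 2 * p * (un * vn)) := by
    have : ((4 * (Ka * Kb - p * p) : ℕ) : ℤ) =
        ((Kn * (Kb * un * un + Ka * vn * vn - 2 * p * (un * vn)) : ℕ) : ℤ) := by
      rw [Nat.cast_mul, Nat.cast_mul, hA33, hvalc, ← hKn', ← hval]
      rfl
    exact_mod_cast this
  have hvp : 0 < Kb * un * un + Ka * vn * vn - 2 * p * (un * vn) := by omega
  have hfin := st1_spec E hst un vn hun3 hvn3 (by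
      rw [hE.eKb, hE.ep]
      omega) (by
      rw [hE.eKa, hE.ep]
      omega) (by
      rw [hE.eKa, hE.eKb, hE.ep, hE.eA33, hn]
      exact Nat.mul_mod_left _ _)
  rw [hE.eKa, hE.eKb, hE.ep, hE.eA33, hE.eA, hE.ea, hE.eb, hn, Nat.mul_div_cancel _ hvp] at hfin
  have hcon := noR_spec A _ _ K.zI4 x (by have := hN.A33; omega) (by
    rw [vI_add, vI_smul, vI_smul]
    ext i
    simp only [Pi.smul_apply, Pi.add_apply, smul_eq_mul]
    have h1 : (Int.ofNat (Kn * (Kb * un - p * vn)) : ℤ) = KK * ((Kb : ℤ) * un - p * vn) := by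
      rw [hKn', ← hXc]
      rfl
    have h2 : (Int.ofNat (Kn * (Ka * vn - p * un)) : ℤ) = KK * ((Ka : ℤ) * vn - p * un) := by
      rw [hKn', ← hYc]
      rfl
    have h3 : ((2 * (Ka * Kb - p * p) : ℕ) : ℤ) = 2 * S := by
      rw [Nat.cast_mul, hA33]
      rfl
    rw [h1, h2, h3, hvec i]
    ring) hfin
  rcases hcon with h | h
  · rw [vI_zero] at h
    exact root_ne_zero hx h
  · exact h hx

theorem p2core (A : K.I10) (a b c : K.I4) (E : K.Ed) (Ka Kb Kc p q r : ℕ)
    (hN : Nums (matI A) (vI a) (vI b) (vI c) Ka Kb Kc p q r) (hE : EdOK A a b c E Ka Kb Kc p q r)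
    (hst : K.st2 E = true) {x : Z4} (hx : IsRoot (matI A) x) (hxc : x ≠ vI c) {D α β γ : ℤ}
    (hD : 0 < D) (hγ : 0 < γ) (hrel : D • x = α • vI a + β • vI b + γ • vI c)
    (hxa0 : bz (matI A) x (vI a) ≤ 0) (hxb0 : bz (matI A) x (vI b) ≤ 0)
    (hxc0 : 0 < bz (matI A) x (vI c)) (hαβ : α < 0 ∨ β < 0) : False := by
  obtain ⟨hPD, hA11n, hA22n⟩ := hN.pd
  set G := matI A with hG
  have hs := hN.symm
  have eab : bz G (vI a) (vI b) = -(p : ℤ) := by rw [hN.hp]; ring
  have eba : bz G (vI b) (vI a) = -(p : ℤ) := by rw [comm_of hs]; exact eab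
  have eac : bz G (vI a) (vI c) = -(q : ℤ) := by rw [hN.hq]; ring
  have eca : bz G (vI c) (vI a) = -(q : ℤ) := by rw [comm_of hs]; exact eac
  have ebc : bz G (vI b) (vI c) = -(r : ℤ) := by rw [hN.hr]; ring
  have ecb : bz G (vI c) (vI b) = -(r : ℤ) := by rw [comm_of hs]; exact ebc
  set xa := bz G x (vI a) with hxa
  set xb := bz G x (vI b) with hxb
  set xc := bz G x (vI c) with hxcd
  set KK := bz G x x with hKK
  have hK : 0 < KK := hx.pos
  have e1 : D * xa = α * Ka + β * -(p : ℤ) + γ * -(q : ℤ) := by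
    have := congrArg (fun v => bz G v (vI a)) hrel
    simp only [bz_smul_l, bz_add_l] at this
    rw [eba, eca, ← hN.ka] at this
    exact this
  have e2 : D * xb = α * -(p : ℤ) + β * Kb + γ * -(r : ℤ) := by
    have := congrArg (fun v => bz G v (vI b)) hrel
    simp only [bz_smul_l, bz_add_l] at this
    rw [eab, ecb, ← hN.kb] at this
    exact this
  have e3 : D * xc = α * -(q : ℤ) + β * -(r : ℤ) + γ * Kc := by
    have := congrArg (fun v => bz G v (vI c)) hrel
    simp only [bz_smul_l, bz_add_l] at this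
    rw [eac, ebc, ← hN.kc] at this
    exact this
  have hi : ∀ i, D * x i = α * vI a i + β * vI b i + γ * vI c i := fun i => congrFun hrel i
  have ga : 0 < KK * bz G (vI a) (vI a) - xa ^ 2 := by
    refine g2pos hPD hx (D := D) (x1 := D * KK - xa * α) (x2 := -(xa * β)) (x3 := -(xa * γ))
      hD.ne' ?_ ?_
    · ext i
      simp only [Pi.smul_apply, Pi.add_apply, smul_eq_mul, ← hKK, ← hxa]
      linear_combination (-xa) * hi i
    · by_cases h0 : xa = 0
      · left
        rw [h0, zero_mul, sub_zero]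
        exact mul_ne_zero hD.ne' hK.ne'
      · right; right
        exact neg_ne_zero.2 (mul_ne_zero h0 hγ.ne')
  have gb : 0 < KK * bz G (vI b) (vI b) - xb ^ 2 := by
    refine g2pos hPD hx (D := D) (x1 := -(xb * α)) (x2 := D * KK - xb * β) (x3 := -(xb * γ))
      hD.ne' ?_ ?_
    · ext i
      simp only [Pi.smul_apply, Pi.add_apply, smul_eq_mul, ← hKK, ← hxb]
      linear_combination (-xb) * hi i
    · by_cases h0 : xb = 0
      · right; left
        rw [h0, zero_mul, sub_zero]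
        exact mul_ne_zero hD.ne' hK.ne'
      · right; right
        exact neg_ne_zero.2 (mul_ne_zero h0 hγ.ne')
  have gc : 0 < KK * bz G (vI c) (vI c) - xc ^ 2 := by
    refine g2pos hPD hx (D := D) (x1 := -(xc * α)) (x2 := -(xc * β)) (x3 := D * KK - xc * γ)
      hD.ne' ?_ ?_
    · ext i
      simp only [Pi.smul_apply, Pi.add_apply, smul_eq_mul, ← hKK, ← hxcd]
      linear_combination (-xc) * hi i
    · rcases hαβ with h | h
      · left
        exact neg_ne_zero.2 (mul_ne_zero hxc0.ne' h.ne)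
      · right; left
        exact neg_ne_zero.2 (mul_ne_zero hxc0.ne' h.ne)
  obtain ⟨u', hu', hu3⟩ := nlt hs hx hN.ra ga
  obtain ⟨v', hv', hv3⟩ := nlt hs hx hN.rb gb
  obtain ⟨w, hw, hw3⟩ := nlt hs hx hN.rc gc
  rw [← hxa, ← hKK] at hu'
  rw [← hxb, ← hKK] at hv'
  rw [← hxcd, ← hKK] at hw
  have hu0 : 0 ≤ -u' := by
    by_contra hcon
    push Not at hcon
    have : 0 < KK * u' := mul_pos hK (by linarith)
    rw [← hu'] at this
    linarith
  have hv0 : 0 ≤ -v' := by
    by_contra hcon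
    push Not at hcon
    have : 0 < KK * v' := mul_pos hK (by linarith)
    rw [← hv'] at this
    linarith
  have hw0 : 0 < w := by
    have : 0 < KK * w := by rw [← hw]; linarith
    exact (mul_pos_iff_of_pos_left hK).1 this
  obtain ⟨un, hun⟩ := Int.eq_ofNat_of_zero_le hu0
  obtain ⟨vn, hvn⟩ := Int.eq_ofNat_of_zero_le hv0
  obtain ⟨wn, hwn⟩ := Int.eq_ofNat_of_zero_le hw0.le
  obtain ⟨Kn, hKn⟩ := Int.eq_ofNat_of_zero_le hK.le
  have hun' : u' = -(un : ℤ) := by
    have : -u' = (un : ℤ) := hun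
    linarith
  have hvn' : v' = -(vn : ℤ) := by
    have : -v' = (vn : ℤ) := hvn
    linarith
  have hwn' : w = (wn : ℤ) := hwn
  have hKn' : KK = (Kn : ℤ) := hKn
  have hun3 : un ≤ 3 := by
    have := (abs_le.1 hu3).1
    omega
  have hvn3 : vn ≤ 3 := by
    have := (abs_le.1 hv3).1
    omega
  have hwn3 : 1 ≤ wn ∧ wn ≤ 3 := by
    have := (abs_le.1 hw3).2
    constructor <;> omega
  have hA33n : p * p < Ka * Kb := by have := hN.A33; omega
  have hDen : p * (p * Kc + q * r) + q * (q * Kb + p * r) < Ka * (Kb * Kc - r * r) := by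
    have := hN.De; omega
  have cA33 : ((Ka * Kb - p * p : ℕ) : ℤ) = (Ka : ℤ) * Kb - p * p := by
    push_cast [Nat.cast_sub hA33n.le]
    ring
  have cA22 : ((Ka * Kc - q * q : ℕ) : ℤ) = (Ka : ℤ) * Kc - q * q := by
    push_cast [Nat.cast_sub hA22n.le]
    ring
  have cA11 : ((Kb * Kc - r * r : ℕ) : ℤ) = (Kb : ℤ) * Kc - r * r := by
    push_cast [Nat.cast_sub hA11n.le]
    ring
  have cDe : ((Ka * (Kb * Kc - r * r) - (p * (p * Kc + q * r) + q * (q * Kb + p * r)) : ℕ) : ℤ) =
      (Ka : ℤ) * ((Kb : ℤ) * Kc - r * r) - (p * (p * Kc + q * r) + q * (q * Kb + p * r)) := by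
    rw [Nat.cast_sub hDen.le, Nat.cast_mul, cA11]
    push_cast
    ring
  set S11 : ℤ := (Kb : ℤ) * Kc - r * r with hS11
  set S22 : ℤ := (Ka : ℤ) * Kc - q * q with hS22
  set S33 : ℤ := (Ka : ℤ) * Kb - p * p with hS33
  set S12 : ℤ := (p : ℤ) * Kc + q * r with hS12
  set S13 : ℤ := (q : ℤ) * Kb + p * r with hS13
  set S23 : ℤ := (r : ℤ) * Ka + p * q with hS23
  set De : ℤ := (Ka : ℤ) * S11 - (p * S12 + q * S13) with hDe
  have hDe0 : 0 < De := by
    rw [← cDe]
    have := hN.De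
    exact_mod_cast this
  have hu2 : 2 * xa = -(KK * un) := by rw [hu', hun']; ring
  have hv2 : 2 * xb = -(KK * vn) := by rw [hv', hvn']; ring
  have hw2 : 2 * xc = KK * wn := by rw [hw, hwn']
  set X : ℤ := S13 * wn - (S11 * un + S12 * vn) with hXd
  set Y : ℤ := S23 * wn - (S12 * un + S22 * vn) with hYd
  set Z : ℤ := S33 * wn - (S13 * un + S23 * vn) with hZd
  have hX : 2 * De * α = D * KK * X := by
    have h1 : 2 * De * α = S11 * (D * (2 * xa)) + S12 * (D * (2 * xb)) + S13 * (D * (2 * xc)) := by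
      rw [hDe, hS11, hS12, hS13]
      linear_combination (-(2 * ((Kb : ℤ) * Kc - r * r))) * e1 -
        2 * ((p : ℤ) * Kc + q * r) * e2 - 2 * ((q : ℤ) * Kb + p * r) * e3
    rw [h1, hu2, hv2, hw2, hXd]
    ring
  have hY : 2 * De * β = D * KK * Y := by
    have h1 : 2 * De * β = S12 * (D * (2 * xa)) + S22 * (D * (2 * xb)) + S23 * (D * (2 * xc)) := by
      rw [hDe, hS11, hS12, hS13, hS22, hS23]
      linear_combination (-(2 * ((p : ℤ) * Kc + q * r))) * e1 -
        2 * ((Ka : ℤ) * Kc - q * q) * e2 - 2 * ((r : ℤ) * Ka + p * q) * e3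
    rw [h1, hu2, hv2, hw2, hYd]
    ring
  have hZ : 2 * De * γ = D * KK * Z := by
    have h1 : 2 * De * γ = S13 * (D * (2 * xa)) + S23 * (D * (2 * xb)) + S33 * (D * (2 * xc)) := by
      rw [hDe, hS11, hS12, hS13, hS33, hS23]
      linear_combination (-(2 * ((q : ℤ) * Kb + p * r))) * e1 -
        2 * ((r : ℤ) * Ka + p * q) * e2 - 2 * ((Ka : ℤ) * Kb - p * p) * e3
    rw [h1, hu2, hv2, hw2, hZd]
    ring
  have hDK : 0 < D * KK := mul_pos hD hK
  have hZ0 : 0 < Z := by
    have h1 : 0 < D * KK * Z := by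
      rw [← hZ]
      positivity
    exact (mul_pos_iff_of_pos_left hDK).1 h1
  have hXY : X < 0 ∨ Y < 0 := by
    rcases hαβ with h | h
    · left
      have h1 : D * KK * X < 0 := by
        rw [← hX]
        exact mul_neg_of_pos_of_neg (by positivity) h
      by_contra hcon
      push Not at hcon
      linarith [mul_nonneg hDK.le hcon]
    · right
      have h1 : D * KK * Y < 0 := by
        rw [← hY]
        exact mul_neg_of_pos_of_neg (by positivity) h
      by_contra hcon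
      push Not at hcon
      linarith [mul_nonneg hDK.le hcon]
  have hvec : ∀ i, 2 * De * x i = KK * X * vI a i + KK * Y * vI b i + KK * Z * vI c i := by
    intro i
    have h1 : D * (2 * De * x i) = D * (KK * X * vI a i + KK * Y * vI b i + KK * Z * vI c i) := by
      linear_combination (2 * De) * hi i + vI a i * hX + vI b i * hY + vI c i * hZ
    exact mul_left_cancel₀ hD.ne' h1
  have hvec' : (2 * De) • x = (KK * X) • vI a + (KK * Y) • vI b + (KK * Z) • vI c := by
    ext i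
    simp only [Pi.smul_apply, Pi.add_apply, smul_eq_mul]
    exact hvec i
  set val : ℤ := S11 * un * un + S22 * vn * vn + (S33 * wn * wn + 2 * S12 * un * vn) -
    2 * (S13 * un * wn + S23 * vn * wn) with hvald
  have hval : 4 * De = KK * val := by
    have h1 := congrArg (fun v => bz G v x) hvec'
    simp only [bz_smul_l, bz_add_l] at h1
    rw [comm_of hs (vI a) x, comm_of hs (vI b) x, comm_of hs (vI c) x, ← hxa, ← hxb, ← hxcd,
      ← hKK] at h1
    have h2 : KK * (4 * De) = KK * (KK * val) := by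
      rw [hvald]
      linear_combination 2 * h1 + KK * X * hu2 + KK * Y * hv2 + KK * Z * hw2
    exact mul_left_cancel₀ hK.ne' h2
  have hval0 : 0 < val := by
    have : 0 < KK * val := by
      rw [← hval]; linarith
    exact (mul_pos_iff_of_pos_left hK).1 this
  have c12 : ((p * Kc + q * r : ℕ) : ℤ) = S12 := by push_cast; rfl
  have c13 : ((q * Kb + p * r : ℕ) : ℤ) = S13 := by push_cast; rfl
  have c23 : ((r * Ka + p * q : ℕ) : ℤ) = S23 := by push_cast; rfl
  have hbig : 2 * ((q * Kb + p * r) * un * wn + (r * Ka + p * q) * vn * wn) <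
      (Kb * Kc - r * r) * un * un + (Ka * Kc - q * q) * vn * vn +
        ((Ka * Kb - p * p) * wn * wn + 2 * (p * Kc + q * r) * un * vn) := by
    have : ((2 * ((q * Kb + p * r) * un * wn + (r * Ka + p * q) * vn * wn) : ℕ) : ℤ) <
      (((Kb * Kc - r * r) * un * un + (Ka * Kc - q * q) * vn * vn +
        ((Ka * Kb - p * p) * wn * wn + 2 * (p * Kc + q * r) * un * vn) : ℕ) : ℤ) := by
      simp only [Nat.cast_mul, Nat.cast_add, cA11, cA22, cA33]
      simp only [Nat.cast_mul, Nat.cast_add, Nat.cast_ofNat] at c12 c13 c23 ⊢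
      rw [← hS12, ← hS13, ← hS23]
      linarith
    exact_mod_cast this
  have hvalc : (((Kb * Kc - r * r) * un * un + (Ka * Kc - q * q) * vn * vn +
        ((Ka * Kb - p * p) * wn * wn + 2 * (p * Kc + q * r) * un * vn) -
        2 * ((q * Kb + p * r) * un * wn + (r * Ka + p * q) * vn * wn) : ℕ) : ℤ) = val := by
    rw [Nat.cast_sub hbig.le, hvald]
    simp only [Nat.cast_mul, Nat.cast_add, cA11, cA22, cA33, Nat.cast_ofNat]
    ring
  have hn : 4 * (Ka * (Kb * Kc - r * r) - (p * (p * Kc + q * r) + q * (q * Kb + p * r))) =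
      Kn * ((Kb * Kc - r * r) * un * un + (Ka * Kc - q * q) * vn * vn +
        ((Ka * Kb - p * p) * wn * wn + 2 * (p * Kc + q * r) * un * vn) -
        2 * ((q * Kb + p * r) * un * wn + (r * Ka + p * q) * vn * wn)) := by
    have : ((4 * (Ka * (Kb * Kc - r * r) - (p * (p * Kc + q * r) + q * (q * Kb + p * r))) : ℕ)
        : ℤ) = ((Kn * ((Kb * Kc - r * r) * un * un + (Ka * Kc - q * q) * vn * vn +
        ((Ka * Kb - p * p) * wn * wn + 2 * (p * Kc + q * r) * un * vn) -
        2 * ((q * Kb + p * r) * un * wn + (r * Ka + p * q) * vn * wn)) : ℕ) : ℤ) := by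
      rw [Nat.cast_mul, Nat.cast_mul, cDe, hvalc, ← hKn', ← hval]
      rfl
    exact_mod_cast this
  have hDe1 := hN.De
  have hfin := st2_spec E hst un vn wn hun3 hvn3 hwn3 (by
      rw [hE.eA13, hE.eA23, hE.eA33]
      have : (((q * Kb + p * r) * un + (r * Ka + p * q) * vn : ℕ) : ℤ) <
          (((Ka * Kb - p * p) * wn : ℕ) : ℤ) := by
        rw [Nat.cast_mul, cA33, Nat.cast_add, Nat.cast_mul, Nat.cast_mul, c13, c23]
        linarith
      exact_mod_cast this) (by
      rw [hE.eA13, hE.eA23, hE.eA11, hE.eA12, hE.eA22]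
      rcases hXY with h | h
      · left
        have : (((q * Kb + p * r) * wn : ℕ) : ℤ) <
            (((Kb * Kc - r * r) * un + (p * Kc + q * r) * vn : ℕ) : ℤ) := by
          simp only [Nat.cast_mul, Nat.cast_add, cA11]
          rw [← hS12, ← hS13]
          linarith
        exact_mod_cast this
      · right
        have : (((r * Ka + p * q) * wn : ℕ) : ℤ) <
            (((p * Kc + q * r) * un + (Ka * Kc - q * q) * vn : ℕ) : ℤ) := by
          simp only [Nat.cast_mul, Nat.cast_add, cA22]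
          rw [← hS12, ← hS23]
          linarith
        exact_mod_cast this) (by
      rw [hE.eA13, hE.eA23, hE.eA11, hE.eA12, hE.eA22, hE.eA33, hE.eDe, hn]
      exact Nat.mul_mod_left _ _) Kn (by
      rw [hE.eA13, hE.eA23, hE.eA11, hE.eA12, hE.eA22, hE.eA33, hE.eDe, hn,
        Nat.mul_div_cancel]
      omega)
  rw [hE.eA13, hE.eA23, hE.eA11, hE.eA12, hE.eA22, hE.eA33, hE.eDe, hE.eA, hE.ea, hE.eb,
    hE.ec, Int.subNatNat_eq_coe, Int.subNatNat_eq_coe, Int.subNatNat_eq_coe] at hfin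
  have hcon := noR_spec A _ _ c x (by omega) (by
    have hlin : ∀ x y z : ℤ, vI (K.linI x y z a b c) = x • vI a + y • vI b + z • vI c := by
      intro x y z
      have : K.linI x y z a b c =
        K.addI (K.addI (K.smul x a) (K.smul y b)) (K.smul z c) := rfl
      rw [this, vI_add, vI_add, vI_smul, vI_smul, vI_smul]
    rw [hlin]
    ext i
    simp only [Pi.smul_apply, Pi.add_apply, smul_eq_mul]
    have h3 : ((2 * (Ka * (Kb * Kc - r * r) - (p * (p * Kc + q * r) + q * (q * Kb + p * r))) : ℕ)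
        : ℤ) = 2 * De := by
      rw [Nat.cast_mul, cDe]
      rfl
    rw [h3, hvec i, hKn']
    simp only [Nat.cast_mul, Nat.cast_add, cA11, cA22, cA33]
    rw [← hS12, ← hS13, ← hS23]) hfin
  rcases hcon with h | h
  · exact hxc h
  · exact h hx

theorem npos_iff (A : K.I10) (u v : K.I4) :
    K.npos A u v = true ↔ bz (matI A) (vI u) (vI v) ≤ 0 := by
  have e : K.npos A u v = K.notb (K.posI (K.dotI u (K.mulI A v))) := rfl
  rw [e, notb_iff, ← Bool.not_eq_true, posI_iff, dotI_mulI, not_lt]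

theorem g3_eq (G : M4) (a b k x : Z4) : g3 G a b k x =
    bz G a a * (bz G b b * bz G k x - bz G b x * bz G b k) -
    bz G a b * (bz G a b * bz G k x - bz G b x * bz G a k) +
    bz G a x * (bz G a b * bz G b k - bz G b b * bz G a k) := by
  simp [g3, Matrix.det_fin_three]
  ring

/-- STARTC from START2 -/
theorem startC (h2 : Start2Stmt) : StartCStmt := by
  intro A a b c hL hR h
  have e : K.startC A a b c = K.ands (K.ands (K.ands (K.isR A a) (K.isR A b))
      (K.ands (K.isR A c) (K.npos A a b)))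
    (K.ands (K.ands (K.npos A a c) (K.npos A b c))
      (K.mkEd A a b c (fun v => v) fun E =>
        K.ands (K.ands (Nat.ble 1 E.A33) (Nat.ble 1 E.De)) (K.ands (K.st1 E) (K.st2 E)))) := rfl
  rw [e] at h
  obtain ⟨E, hE1, hE⟩ := mkEd_spec A a b c (fun v => v) fun E =>
        K.ands (K.ands (Nat.ble 1 E.A33) (Nat.ble 1 E.De)) (K.ands (K.st1 E) (K.st2 E))
  rw [hE1] at h
  simp only [ands_iff, isR_iff, npos_iff, Nat.ble_eq] at h
  obtain ⟨⟨⟨ha, hb⟩, hc, hab⟩, ⟨hac, hbc⟩, ⟨h33, hDe⟩, hst1, hst2⟩ := h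
  set G := matI A with hG
  set Ka := (bz G (vI a) (vI a)).natAbs with hKa
  set Kb := (bz G (vI b) (vI b)).natAbs with hKb
  set Kc := (bz G (vI c) (vI c)).natAbs with hKc
  set p := (bz G (vI a) (vI b)).natAbs with hp
  set q := (bz G (vI a) (vI c)).natAbs with hq
  set r := (bz G (vI b) (vI c)).natAbs with hr
  rw [hE.eA33] at h33
  rw [hE.eDe] at hDe
  have hN : Nums G (vI a) (vI b) (vI c) Ka Kb Kc p q r :=
    ⟨matI_symm A, Int.natAbs_of_nonneg ha.pos.le, Int.natAbs_of_nonneg hb.pos.le,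
      Int.natAbs_of_nonneg hc.pos.le, by rw [hp, Int.ofNat_natAbs_of_nonpos hab],
      by rw [hq, Int.ofNat_natAbs_of_nonpos hac], by rw [hr, Int.ofNat_natAbs_of_nonpos hbc],
      ha, hb, hc, h33, hDe⟩
  obtain ⟨hPD, -, -⟩ := hN.pd
  obtain ⟨n, f, O, i, j, k, hC, hi, hj, hk, hV, hm⟩ := h2 G hL hR (vI a) (vI b) (vI c) ha hb hc
    hab hac hbc (by
      have := hPD.h2
      rw [g2]
      exact this) (by
      have h3 := hPD.h3
      rw [g3_eq]
      linarith) (by
      intro x hx D α β hD hrel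
      by_contra hcon
      push Not at hcon
      obtain ⟨c1, c2⟩ := hcon
      rcases le_or_gt 0 α with h | h
      · have hβ := c1 h
        have hα : 0 < α := by
          by_contra hα
          push Not at hα
          have := c2 hα
          linarith
        exact p1core A a b c E Ka Kb Kc p q r hN hE hst1 hx hD hrel hα hβ
      · have hβ := c2 h.le
        refine p1core A a b c E Ka Kb Kc p q r hN hE hst1 (root_neg hx) (α := -α) (β := -β) hD
          ?_ (by linarith) (by linarith)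
        rw [smul_neg, hrel, neg_smul, neg_smul, neg_add]) (by
      intro x hx hxc D α β γ hD hγ hrel hxa hxb
      by_contra hcon
      push Not at hcon
      obtain ⟨c1, c2⟩ := hcon
      refine p2core A a b c E Ka Kb Kc p q r hN hE hst2 hx hxc hD hγ hrel hxa hxb c1 ?_
      by_contra h3
      push Not at h3
      exact absurd (c2 h3.1) (not_lt.2 h3.2))
  exact ⟨n, f, O, hC, i, j, k, hi, hj, hk, hV, hm⟩

end Pool.Agent.Refl.H38
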