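import Pool.Agent.Helper93_Refl.Lina
import Pool.Agent.Helper23_Refl.StmtC4

/-!
# WALK: reading a walk
-/

namespace Pool.Agent.Refl.H38

open Matrix Pool.Agent.Refl Pool.Agent.Refl.H93

theorem rdl_ex (k : ℕ) : ∀ (f : List ℕ → ℕ → ℕ) (s : ℕ), ∃ l s', K.rdl k f s = f l s' := by
  induction k with
  | zero => intro f s; exact ⟨[], s, rfl⟩
  | succ k ih =>
    intro f s
    have h : K.rdl (k + 1) f s =
        K.fc (Nat.add (Nat.mul 16 (Nat.mod s 4096)) (Nat.mod (Nat.div s 4096) 16)) fun x =>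
        K.fc (Nat.div s 65536) fun s => K.rdl k (fun l s => f (List.cons x l) s) s := rfl
    rw [h, fc_eq, fc_eq]
    obtain ⟨l, s', h1⟩ := ih (fun l t => f (List.cons (Nat.add (Nat.mul 16 (Nat.mod s 4096))
      (Nat.mod (Nat.div s 4096) 16)) l) t) (Nat.div s 65536)
    exact ⟨_, s', h1⟩

theorem rd10_ex (w s : ℕ) (f : K.I10 → ℕ → ℕ) : ∃ X s', K.rd10 w s f = f X s' := by
  have h : K.rd10 w s f = K.fc (Nat.pow 2 (Nat.mul 10 w)) fun W => K.fc (Nat.mod s W) fun row =>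
      K.fc (Nat.div s W) fun s => f (K.i10 w row) s := rfl
  rw [h, fc_eq, fc_eq, fc_eq]
  exact ⟨_, _, rfl⟩

theorem fcI_eq {α : Type} (x : ℤ) (f : ℤ → α) : K.fcI x f = f x := by
  cases x with
  | ofNat n =>
    have h : K.fcI (Int.ofNat n) f = K.fc n fun n => f (Int.ofNat n) := rfl
    rw [h, fc_eq]
  | negSucc n =>
    have h : K.fcI (Int.negSucc n) f = K.fc n fun n => f (Int.negSucc n) := rfl
    rw [h, fc_eq]

theorem fc4_eq {α : Type} (v : K.I4) (f : K.I4 → α) : K.fc4 v f = f v := by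
  have h : K.fc4 v f = K.fcI v.x fun x => K.fcI v.y fun y => K.fcI v.z fun z =>
      K.fcI v.w fun w => f (K.I4.mk x y z w) := rfl
  rw [h, fcI_eq, fcI_eq, fcI_eq, fcI_eq]

theorem rd4_ex (w s : ℕ) (f : ℕ → ℕ → ℕ → ℕ → ℕ → ℕ) :
    ∃ a b c d s', K.rd4 w s f = f a b c d s' := by
  have h : K.rd4 w s f = K.fc (Nat.pow 2 w) fun W => K.fc (Nat.mod s (Nat.pow W 4)) fun h =>
      K.fc (Nat.div s (Nat.pow W 4)) fun s' =>
      f (Nat.mod h W) (Nat.mod (Nat.div h W) W) (Nat.mod (Nat.div h (Nat.pow W 2)) W)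
      (Nat.div h (Nat.pow W 3)) s' := rfl
  rw [h, fc_eq, fc_eq, fc_eq]
  exact ⟨_, _, _, _, _, rfl⟩

theorem rdI_ex (w s : ℕ) (f : K.I4 → ℕ → ℕ) : ∃ v s', K.rdI w s f = f v s' := by
  have h : K.rdI w s f = K.rd4 w s fun z0 z1 z2 z3 s => K.fc (Nat.div (Nat.pow 2 w) 2) fun t =>
      K.fc4 (K.I4.mk (K.sg t z0) (K.sg t z1) (K.sg t z2) (K.sg t z3)) fun v => f v s := rfl
  rw [h]
  obtain ⟨a, b, c, d, s', h1⟩ := rd4_ex w s fun z0 z1 z2 z3 s =>
    K.fc (Nat.div (Nat.pow 2 w) 2) fun t =>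
      K.fc4 (K.I4.mk (K.sg t z0) (K.sg t z1) (K.sg t z2) (K.sg t z3)) fun v => f v s
  rw [h1, fc_eq, fc4_eq]
  exact ⟨_, _, rfl⟩

theorem brec_ne {b : Bool} {x : ℕ} (h : (Bool.rec 0 x b : ℕ) ≠ 0) : b = true ∧ x ≠ 0 := by
  cases b
  · exact absurd rfl h
  · exact ⟨rfl, h⟩

theorem getV_mem (l : List K.Vx) : ∀ i : ℕ, i < l.length → K.getV l i ∈ l := by
  induction l with
  | nil => intro i hi; exact absurd hi (Nat.not_lt_zero _)
  | cons a l ih =>
    intro i hi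
    cases i with
    | zero => exact List.mem_cons_self
    | succ m =>
      have h : K.getV (a :: l) (m + 1) = K.getV l m := rfl
      rw [h]
      exact List.mem_cons_of_mem _ (ih m (by simpa using hi))

theorem len_eq (l : List K.Vx) :
    (List.rec (motive := fun _ => ℕ) 0 (fun _ _ n => Nat.succ n) l : ℕ) = l.length := by
  induction l with
  | nil => rfl
  | cons a l ih => 
    show Nat.succ _ = _
    rw [ih]
    rfl

theorem d4_rot (a b c m : Z4) : d4 b c a m = d4 a b c m := by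
  simp only [d4]
  simp [Matrix.det_succ_row_zero, Fin.sum_univ_succ, Fin.succAbove]
  ring

theorem VOK_rot {G : M4} {n : ℕ} {f : Fin n → Z4} {a b c : Z4} (h : VOK G f a b c) :
    VOK G f b c a := by
  obtain ⟨i, j, k, hi, hj, hk, ⟨h1, h2, h3, V, hV0, hV, hVi, hVj, hVk⟩, h4⟩ := h
  refine ⟨j, k, i, hj, hk, hi, ⟨h2, h3.symm, h1.symm, V, hV0, hV, hVj, hVk, hVi⟩, ?_⟩
  intro m hm1 hm2 hm3
  rw [d4_rot]
  exact h4 m hm3 hm1 hm2

theorem VOK_per {G : M4} {n : ℕ} {f : Fin n → Z4} (v : K.Vx)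
    (h : VOK G f (vI v.a) (vI v.b) (vI v.c)) (k : ℕ) (hk : k < 3) :
    VOK G f (vI (K.perV k v).a) (vI (K.perV k v).b) (vI (K.perV k v).c) := by
  interval_cases k
  · exact h
  · exact VOK_rot h
  · exact VOK_rot (VOK_rot h)

theorem wlk_spec (A : K.I10) (ml : List ℕ) (n : ℕ) (f : Fin n → Z4) (O : R4)
    (hL : Lat (matI A)) (hV : VscStmt)
    (hn : ∀ r : Z4, IsRoot (matI A) r → ∀ g : ℕ → Bool, K.dvl g ml 1 = true →
      g (bz (matI A) r r).natAbs = true) (hC : Cham (matI A) n f O) (k : ℕ) :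
    ∀ (F : List K.Vx → ℕ → ℕ) (l : List K.Vx) (s : ℕ),
      (∀ v ∈ l, VOK (matI A) f (vI v.a) (vI v.b) (vI v.c)) → K.wlk A ml k F l s ≠ 0 →
      ∃ (l' : List K.Vx) (s' : ℕ),
        (∀ v ∈ l', VOK (matI A) f (vI v.a) (vI v.b) (vI v.c)) ∧ F l' s' ≠ 0 := by
  induction k with
  | zero => intro F l s hl h; exact ⟨l, s, hl, h⟩
  | succ k ih =>
    intro F l s hl h
    have e : K.wlk A ml (k + 1) F l s =
      K.fc (Nat.mod s 65536) fun h => K.fc (Nat.mod (Nat.div h 256) 4) fun rot =>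
      K.rdI (Nat.div h 1024) (Nat.div s 65536) fun r1 s =>
      (fun v : K.Vx => (Bool.rec 0 (K.wlk A ml k F (List.cons (K.Vx.mk v.b v.a r1) l) s)
        (K.ands (Nat.blt (Nat.mod h 256) (List.rec 0 (fun _ _ n => Nat.succ n) l))
          (K.ands (Nat.blt rot 3) (K.vsC A v.a v.b v.c r1 ml))) : ℕ))
            (K.perV rot (K.getV l (Nat.mod h 256))) := rfl
    rw [e, fc_eq, fc_eq] at h
    set hh := Nat.mod s 65536
    set rot := Nat.mod (Nat.div hh 256) 4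
    obtain ⟨r1, s1, h1⟩ := rdI_ex (Nat.div hh 1024) (Nat.div s 65536) fun r1 s =>
      (fun v : K.Vx => (Bool.rec 0 (K.wlk A ml k F (List.cons (K.Vx.mk v.b v.a r1) l) s)
        (K.ands (Nat.blt (Nat.mod hh 256) (List.rec 0 (fun _ _ n => Nat.succ n) l))
          (K.ands (Nat.blt rot 3) (K.vsC A v.a v.b v.c r1 ml))) : ℕ))
            (K.perV rot (K.getV l (Nat.mod hh 256)))
    rw [h1] at h
    obtain ⟨hc, h2⟩ := brec_ne h
    rw [ands_iff, ands_iff, len_eq] at hc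
    obtain ⟨hc1, hc2, hc3⟩ := hc
    have hc1' : Nat.mod hh 256 < l.length := by simpa [Nat.blt_eq] using hc1
    have hc2' : rot < 3 := by simpa [Nat.blt_eq] using hc2
    have hv := hl _ (getV_mem l _ hc1')
    have hv2 := VOK_per _ hv rot hc2'
    have hv3 := hV A ml n f O _ _ _ r1 hL hn hC hv2 hc3
    refine ih F _ s1 ?_ h2
    intro v hvm
    rcases List.mem_cons.1 hvm with h | h
    · rw [h]
      exact hv3
    · exact hl v h

theorem walk (hN : Norm2Stmt) (hS : StartCStmt) (hV : VscStmt) : WalkStmt := by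
  intro A s k hL hR h
  have e : K.walk A s k = K.rdl (Nat.mod s 32) (fun ml s =>
    K.fc (K.prl ml) fun e2 => K.fc (Nat.div e2 2) fun e => K.rd10 (Nat.mod s 256) (Nat.div s 256)
      fun X s =>
    Bool.rec 0
      (K.fc (Nat.mod s 64) fun w => K.rdI w (Nat.div s 64) fun a s => K.rdI w s fun b s =>
        K.rdI w s fun c s =>
        Bool.rec 0 (K.wlk A ml (Nat.mod s 256) k (List.cons (K.Vx.mk a b c) List.nil)
          (Nat.div s 256)) (K.startC A a b c))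
      (K.ands (Nat.ble 1 e) (K.ands (Nat.beq (Nat.mul 2 e) e2) (K.invC A X e)))) (Nat.div s 32) :=
    rfl
  rw [e] at h
  obtain ⟨ml, s1, h1⟩ := rdl_ex (Nat.mod s 32) (fun ml s =>
    K.fc (K.prl ml) fun e2 => K.fc (Nat.div e2 2) fun e => K.rd10 (Nat.mod s 256) (Nat.div s 256)
      fun X s =>
    Bool.rec 0
      (K.fc (Nat.mod s 64) fun w => K.rdI w (Nat.div s 64) fun a s => K.rdI w s fun b s =>
        K.rdI w s fun c s =>
        Bool.rec 0 (K.wlk A ml (Nat.mod s 256) k (List.cons (K.Vx.mk a b c) List.nil)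
          (Nat.div s 256)) (K.startC A a b c))
      (K.ands (Nat.ble 1 e) (K.ands (Nat.beq (Nat.mul 2 e) e2) (K.invC A X e)))) (Nat.div s 32)
  rw [h1, fc_eq, fc_eq] at h
  clear h1 e
  obtain ⟨X, s2, h2⟩ := rd10_ex (Nat.mod s1 256) (Nat.div s1 256) fun X s =>
    Bool.rec 0
      (K.fc (Nat.mod s 64) fun w => K.rdI w (Nat.div s 64) fun a s => K.rdI w s fun b s =>
        K.rdI w s fun c s =>
        Bool.rec 0 (K.wlk A ml (Nat.mod s 256) k (List.cons (K.Vx.mk a b c) List.nil)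
          (Nat.div s 256)) (K.startC A a b c))
      (K.ands (Nat.ble 1 (Nat.div (K.prl ml) 2)) (K.ands (Nat.beq (Nat.mul 2
        (Nat.div (K.prl ml) 2)) (K.prl ml)) (K.invC A X (Nat.div (K.prl ml) 2))))
  rw [h2] at h
  clear h2
  obtain ⟨hc, h3⟩ := brec_ne h
  rw [ands_iff, ands_iff] at hc
  obtain ⟨hc1, hc2, hc3⟩ := hc
  have hc1' : 1 ≤ Nat.div (K.prl ml) 2 := by simpa [Nat.ble_eq] using hc1
  have hc2' : Nat.mul 2 (Nat.div (K.prl ml) 2) = K.prl ml := by simpa [Nat.beq_eq] using hc2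
  rw [fc_eq] at h3
  obtain ⟨a, s3, h4⟩ := rdI_ex (Nat.mod s2 64) (Nat.div s2 64) fun a s =>
    K.rdI (Nat.mod s2 64) s fun b s => K.rdI (Nat.mod s2 64) s fun c s =>
        Bool.rec 0 (K.wlk A ml (Nat.mod s 256) k (List.cons (K.Vx.mk a b c) List.nil)
          (Nat.div s 256)) (K.startC A a b c)
  rw [h4] at h3
  clear h4
  obtain ⟨b, s4, h5⟩ := rdI_ex (Nat.mod s2 64) s3 fun b s => K.rdI (Nat.mod s2 64) s fun c s =>
        Bool.rec 0 (K.wlk A ml (Nat.mod s 256) k (List.cons (K.Vx.mk a b c) List.nil)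
          (Nat.div s 256)) (K.startC A a b c)
  rw [h5] at h3
  clear h5
  obtain ⟨c, s5, h6⟩ := rdI_ex (Nat.mod s2 64) s4 fun c s =>
        Bool.rec 0 (K.wlk A ml (Nat.mod s 256) k (List.cons (K.Vx.mk a b c) List.nil)
          (Nat.div s 256)) (K.startC A a b c)
  rw [h6] at h3
  clear h6
  obtain ⟨hc4, h7⟩ := brec_ne h3
  obtain ⟨n, f, O, hCh, hVO⟩ := hS A a b c hL hR hc4
  have hn : ∀ r : Z4, IsRoot (matI A) r → ∀ g : ℕ → Bool, K.dvl g ml 1 = true →
      g (bz (matI A) r r).natAbs = true := fun r hr g hg =>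
    hN A X (Nat.div (K.prl ml) 2) r ml hL hr hc1' hc3 hc2'.symm g hg
  obtain ⟨l', s', hl', hk⟩ := wlk_spec A ml n f O hL hV hn hCh (Nat.mod s5 256) k
    (List.cons (K.Vx.mk a b c) List.nil) (Nat.div s5 256) (by
      intro v hv
      rw [List.mem_singleton] at hv
      rw [hv]
      exact hVO) h7
  exact ⟨n, f, O, l', s', hCh, hl', hk⟩

end Pool.Agent.Refl.H38
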